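import Pool.Agent.Helper4.PQ0.St2
import Pool.Agent.Helper78.PQ0.M_THF

/-!
# Project PQS, module A2U: sums over `E` in the second case for `a = 2`
-/

set_option autoImplicit false

namespace Pool.Agent.Helper16.PQ0

open Matrix ComplexConjugate Pool.Agent.Helper94.YF Pool.Agent.Helper94.YG
open Pool.Agent.Helper89.OS hiding PD Cx Blk B0 Orb StXA StXB StXC StXE StCGR StISO StBLK StAMG StHEC StSTL StMZZ StDRE StTSU
open Pool.Agent.Helper89.OC hiding Ks gX OB Lk StORB StTS2 StLKD StTAN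
open Pool.Agent.Helper4.PQ0
open Pool.Agent.Helper16.OS (TWA_cast TWA_unit TWA_geom TWA_T)
open Pool.Agent.Helper78.PQ0

variable {I : Type} [Fintype I] [DecidableEq I] {p : ℕ}

private theorem pi_bij (X : PD I p 2) (c : (ZMod (p ^ 2))ˣ) : Function.Bijective (X.pi c) := by
  refine ⟨fun a b h => ?_, fun b => ⟨X.pi c⁻¹ b, ?_⟩⟩
  · have := congrArg (X.pi c⁻¹) h
    rwa [← X.pi_mul, ← X.pi_mul, inv_mul_cancel, X.pi_one, X.pi_one] at this
  · rw [← X.pi_mul, mul_inv_cancel, X.pi_one]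

private theorem sum_pi (X : PD I p 2) (c : (ZMod (p ^ 2))ˣ) (F : I → ℂ) :
    ∑ j, F (X.pi c j) = ∑ j, F j :=
  (pi_bij X c).sum_comp F

private theorem t_one_iff (X : PD I p 2) (c : (ZMod (p ^ 2))ˣ) (j : I) :
    X.t (X.pi c j) = 1 ↔ X.t j = 1 := by
  constructor
  · intro h
    have e : j = X.pi c⁻¹ (X.pi c j) := by rw [← X.pi_mul, inv_mul_cancel, X.pi_one]
    rw [e, X.pi_t, h, one_pow]
  · intro h
    rw [X.pi_t, h, one_pow]

private theorem E_mul [NeZero (p ^ 2)] {θ : ℂ} (h : θ ^ (p ^ 2) = 1) (a v : ZMod (p ^ 2)) :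
    E (E θ a) v = E θ (v * a) := by
  have h1 := E_nat h a v.val
  rw [ZMod.natCast_zmod_val] at h1
  rw [h1]
  rfl

private theorem t_pi_ga (X : PD I p 2) (r : ZMod (p ^ 2)) (j : I) :
    X.t (X.pi (ga r) j) = E (X.t j) (1 + (p : ZMod (p ^ 2)) * (2 * r)) := by
  rw [X.pi_t, ga_val]
  have e : (1 + (p : ZMod (p ^ 2)) * r) ^ 2 = 1 + (p : ZMod (p ^ 2)) * (2 * r) := by
    linear_combination (r ^ 2) * (p_sq (p := p))
  rw [e]
  rfl

private theorem E_shift [NeZero (p ^ 2)] (X : PD I p 2) (r : ℕ) (j : I) (v : ZMod (p ^ 2)) :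
    E (X.t (X.pi (ga (r : ZMod (p ^ 2))) j)) v =
      E (X.t j) v * (E (X.t j) ((p : ZMod (p ^ 2)) * (2 * v))) ^ r := by
  rw [t_pi_ga, E_mul (X.t_pow j), ← E_nat (X.t_pow j), ← E_add (X.t_pow j)]
  congr 1
  ring

private theorem tp_ga [NeZero (p ^ 2)] (X : PD I p 2) (r : ZMod (p ^ 2)) (j : I) :
    X.t (X.pi (ga r) j) ^ p = X.t j ^ p := by
  have hp := X.prime
  rw [t_pi_ga, E_add (X.t_pow j), E_one hp, E_p hp (X.t_pow j), mul_pow, ← pow_mul, ← pow_mul]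
  have e : X.t j ^ (p * ((2 * r).val * p)) = (X.t j ^ (p ^ 2)) ^ (2 * r).val := by
    rw [← pow_mul]
    congr 1
    ring
  have e' : X.t j ^ (p * (2 * r).val * p) = (X.t j ^ (p ^ 2)) ^ (2 * r).val := by
    rw [← pow_mul]
    congr 1
    ring
  first
    | rw [e', X.t_pow, one_pow, mul_one]
    | rw [e, X.t_pow, one_pow, mul_one]

open Classical in
private theorem sumE0 [NeZero (p ^ 2)] (X : PD I p 2)
    (ht1 : ∀ k, X.y k ≠ 0 → X.t k ^ p = 1 → X.t k = 1)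
    (Ff : I → ℂ) (hF : ∀ (r : ZMod (p ^ 2)) (j : I), Ff (X.pi (ga r) j) = Ff j)
    (v : ZMod (p ^ 2)) (hv : cs p (2 * v) ≠ 0) :
    (∑ j, if X.y j ≠ 0 ∧ X.t j ≠ 1 then Ff j * E (X.t j) v else 0) = 0 := by
  have hp := X.prime
  have hp0 : (p : ℂ) ≠ 0 := by exact_mod_cast hp.ne_zero
  have e1 : ∀ r : ℕ, (∑ j, if X.y j ≠ 0 ∧ X.t j ≠ 1 then
        Ff j * E (X.t j) v * (E (X.t j) ((p : ZMod (p ^ 2)) * (2 * v))) ^ r else 0) =
      ∑ j, if X.y j ≠ 0 ∧ X.t j ≠ 1 then Ff j * E (X.t j) v else 0 := by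
    intro r
    rw [← sum_pi X (ga (r : ZMod (p ^ 2)))
      (fun j => if X.y j ≠ 0 ∧ X.t j ≠ 1 then Ff j * E (X.t j) v else 0)]
    refine Finset.sum_congr rfl fun j _ => ?_
    by_cases h : X.y j ≠ 0 ∧ X.t j ≠ 1
    · have h' : X.y (X.pi (ga (r : ZMod (p ^ 2))) j) ≠ 0 ∧
          X.t (X.pi (ga (r : ZMod (p ^ 2))) j) ≠ 1 := by
        refine ⟨by rw [X.pi_y]; exact h.1, fun h2 => h.2 ((t_one_iff X _ j).1 h2)⟩
      rw [if_pos h, if_pos h', hF, E_shift, mul_assoc]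
    · have h' : ¬ (X.y (X.pi (ga (r : ZMod (p ^ 2))) j) ≠ 0 ∧
          X.t (X.pi (ga (r : ZMod (p ^ 2))) j) ≠ 1) := by
        rintro ⟨h1, h2⟩
        refine h ⟨by rwa [X.pi_y] at h1, fun h3 => h2 ((t_one_iff X _ j).2 h3)⟩
      rw [if_neg h, if_neg h']
  have e2 : (p : ℂ) * (∑ j, if X.y j ≠ 0 ∧ X.t j ≠ 1 then Ff j * E (X.t j) v else 0) = 0 := by
    calc (p : ℂ) * (∑ j, if X.y j ≠ 0 ∧ X.t j ≠ 1 then Ff j * E (X.t j) v else 0)
        = ∑ r ∈ Finset.range p,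
            (∑ j, if X.y j ≠ 0 ∧ X.t j ≠ 1 then Ff j * E (X.t j) v else 0) := by
          rw [Finset.sum_const, Finset.card_range, nsmul_eq_mul]
      _ = ∑ r ∈ Finset.range p, ∑ j, (if X.y j ≠ 0 ∧ X.t j ≠ 1 then
            Ff j * E (X.t j) v * (E (X.t j) ((p : ZMod (p ^ 2)) * (2 * v))) ^ r else 0) :=
          Finset.sum_congr rfl fun r _ => (e1 r).symm
      _ = ∑ j, ∑ r ∈ Finset.range p, (if X.y j ≠ 0 ∧ X.t j ≠ 1 then
            Ff j * E (X.t j) v * (E (X.t j) ((p : ZMod (p ^ 2)) * (2 * v))) ^ r else 0) :=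
          Finset.sum_comm
      _ = 0 := by
          refine Finset.sum_eq_zero fun j _ => ?_
          by_cases h : X.y j ≠ 0 ∧ X.t j ≠ 1
          · have hjt : X.t j ^ p ≠ 1 := fun h1 => h.2 (ht1 j h.1 h1)
            have h1 : (E (X.t j) ((p : ZMod (p ^ 2)) * (2 * v))) ^ p = 1 := by
              rw [E_p hp (X.t_pow j), ← pow_mul, ← pow_mul,
                show p * ((2 * v).val * p) = p ^ 2 * (2 * v).val by ring, pow_mul, X.t_pow,
                one_pow]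
            have h2 : E (X.t j) ((p : ZMod (p ^ 2)) * (2 * v)) ≠ 1 := by
              intro h3
              exact hv ((pow_one_iff hp (X.t_pow j) hjt _).1 h3)
            simp only [if_pos h]
            rw [← Finset.mul_sum, TWA_geom p _ h1, if_neg h2, mul_zero]
          · simp only [if_neg h, Finset.sum_const_zero]
  exact (mul_eq_zero.1 e2).resolve_left hp0

private theorem Nw_eq [NeZero (p ^ 2)] (hp : p.Prime) : Nw p = p := by
  classical
  have hFp : Fact p.Prime := ⟨hp⟩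
  have h1 : (Finset.univ : Finset ((ZMod (p ^ 2))ˣ)).filter
      (fun w : (ZMod (p ^ 2))ˣ => cs p (w : ZMod (p ^ 2)) = 1) =
      (Finset.range p).image fun r : ℕ => ga (r : ZMod (p ^ 2)) := by
    ext w
    rw [Finset.mem_filter, Finset.mem_image]
    constructor
    · rintro ⟨-, hw⟩
      obtain ⟨r, rfl⟩ := ga_of hp hw
      refine ⟨r.val % p, Finset.mem_range.2 (Nat.mod_lt _ hp.pos), ?_⟩
      refine Units.ext ?_
      rw [ga_val, ga_val]
      have e : (r.val : ZMod (p ^ 2)) = r := ZMod.natCast_zmod_val r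
      have e2 : ((r.val % p : ℕ) : ZMod (p ^ 2)) + (p : ZMod (p ^ 2)) * ((r.val / p : ℕ) : ZMod (p ^ 2))
          = r := by
        have h3 := Nat.mod_add_div r.val p
        have h4 := congrArg (fun n : ℕ => (n : ZMod (p ^ 2))) h3
        simp only [Nat.cast_add, Nat.cast_mul] at h4
        rw [h4, e]
      linear_combination (p : ZMod (p ^ 2)) * e2 -
        ((r.val / p : ℕ) : ZMod (p ^ 2)) * (p_sq (p := p))
    · rintro ⟨r, -, rfl⟩
      refine ⟨Finset.mem_univ _, ?_⟩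
      rw [ga_val, map_add, map_mul, map_one, map_natCast]
      simp
  have h2 : Set.InjOn (fun r : ℕ => ga (r : ZMod (p ^ 2))) (Finset.range p : Set ℕ) := by
    intro a ha b hb h
    rw [Finset.mem_coe, Finset.mem_range] at ha hb
    have h3 := congrArg (fun u : (ZMod (p ^ 2))ˣ => (u : ZMod (p ^ 2))) h
    simp only [ga_val] at h3
    have h4 : ((p * a : ℕ) : ZMod (p ^ 2)) = ((p * b : ℕ) : ZMod (p ^ 2)) := by
      push_cast
      linear_combination h3
    rw [ZMod.natCast_eq_natCast_iff] at h4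
    have h5 : p * a ≡ p * b [MOD p * p] := by rwa [← sq]
    have h6 : a ≡ b [MOD p] := Nat.ModEq.mul_left_cancel' hp.ne_zero h5
    exact Nat.ModEq.eq_of_lt_of_lt h6 ha hb
  unfold Nw
  have h3 : ((Finset.univ : Finset ((ZMod (p ^ 2))ˣ)).filter
      (fun w : (ZMod (p ^ 2))ˣ => cs p (w : ZMod (p ^ 2)) = 1)).card = p := by
    rw [h1, Finset.card_image_of_injOn h2, Finset.card_range]
  convert h3

open Classical in
/-- the sum over the twists with the same `p`-th power -/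
private noncomputable def Rw (X : PD I p 2) (j : I) : ℂ :=
  ∑ l, if X.y l ≠ 0 ∧ X.t l ^ p = X.t j ^ p then X.s l j else 0

private theorem Rw_inv [NeZero (p ^ 2)] (X : PD I p 2) (r : ZMod (p ^ 2)) (j : I) :
    Rw X (X.pi (ga r) j) = Rw X j := by
  classical
  unfold Rw
  rw [← sum_pi X (ga r) (fun l => if X.y l ≠ 0 ∧ X.t l ^ p = X.t j ^ p then X.s l j else 0)]
  refine Finset.sum_congr rfl fun l _ => ?_
  rw [tp_ga]
  simp only [X.pi_y, tp_ga, X.pi_s]

private theorem Cw_eq [NeZero (p ^ 2)] (X : PD I p 2) (M : M1 X) {j : I} (hj : X.y j ≠ 0)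
    (hjt : X.t j ^ p ≠ 1) : Cw X j = (p : ℂ) ^ 2 * X.s j j - (p : ℂ) * Rw X j := by
  classical
  have hp := X.prime
  have hj0 := t_ne X j
  unfold Cw Rw
  have h1 : (p : ℂ) ^ 2 * X.s j j = ∑ l, if l = j then (p : ℂ) ^ 2 * X.s l j else 0 := by
    rw [Finset.sum_ite_eq' Finset.univ j, if_pos (Finset.mem_univ _)]
  rw [h1, Finset.mul_sum, ← Finset.sum_sub_distrib]
  refine Finset.sum_congr rfl fun l _ => ?_
  by_cases h : X.y l ≠ 0 ∧ X.t l ^ p = X.t j ^ p
  · rw [if_pos h, if_pos h]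
    have h2 : (X.t l * (X.t j)⁻¹) ^ (p ^ 2) = 1 := by
      rw [mul_pow, inv_pow, X.t_pow, X.t_pow]; norm_num
    have h3 : (X.t l * (X.t j)⁻¹) ^ p = 1 := by
      rw [mul_pow, inv_pow, h.2, mul_inv_cancel₀ (pow_ne_zero _ hj0)]
    unfold Aw
    rw [TWA_T hp _ h2, if_pos h3]
    by_cases hl : l = j
    · rw [if_pos hl, if_pos (by rw [hl, mul_inv_cancel₀ hj0])]
      ring
    · have h4 : ¬ X.t l * (X.t j)⁻¹ = 1 := by
        intro h5
        rw [mul_inv_eq_one₀ hj0] at h5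
        exact hl (M.uni j l hj hjt h.1 h5).symm
      rw [if_neg hl, if_neg h4]
      ring
  · have hl : l ≠ j := by
      rintro rfl
      exact h ⟨hj, rfl⟩
    rw [if_neg h, if_neg h, if_neg hl]
    ring

theorem hA2U : StA2U := by
  classical
  intro I _ _ p X Q hB M F
  have hp := X.prime
  have hFp : Fact p.Prime := ⟨hp⟩
  have hNZ : NeZero (p ^ 2) := ⟨pow_ne_zero _ hp.ne_zero⟩
  have hp0 : (p : ℂ) ≠ 0 := by exact_mod_cast hp.ne_zero
  have hp3 := three_le X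
  have h2 : (2 : ZMod p) ≠ 0 := by
    intro h
    have h6 : ((2 : ℕ) : ZMod p) = 0 := by exact_mod_cast h
    rw [ZMod.natCast_eq_zero_iff] at h6
    have h7 := Nat.le_of_dvd (by norm_num) h6
    omega
  have hcs2 : cs p (2 : ZMod (p ^ 2)) = 2 := map_ofNat (cs p) 2
  have hv1 : cs p (2 * 1) ≠ 0 := by rw [mul_one, hcs2]; exact h2
  have hv2 : cs p (2 * (-2)) ≠ 0 := by
    rw [map_mul, map_neg, hcs2]
    exact mul_ne_zero h2 (neg_ne_zero.2 h2)
  have hv4 : cs p (2 * (-2 + -2)) ≠ 0 := by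
    rw [map_mul, map_add, map_neg, hcs2]
    have e : (2 : ZMod p) * (-2 + -2) = -(2 * 2 * 2) := by ring
    rw [e]
    exact neg_ne_zero.2 (mul_ne_zero (mul_ne_zero h2 h2) h2)
  have ho : X.y X.o ≠ 0 := by
    intro h
    apply hB.x_nd
    rw [h]
    exact dvd_zero _
  have hFo : Fx X X.o := ⟨ho, by rw [X.t_o, one_pow], fun r => X.pi_o _⟩
  have hEneg : ∀ j, E (X.t j) (-2 : ZMod (p ^ 2)) = (X.t j ^ 2)⁻¹ := by
    intro j
    have e : (2 : ZMod (p ^ 2)) = 1 + 1 := by ring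
    rw [E_neg (X.t_pow j), e, E_add (X.t_pow j), E_one hp, sq]
  have s1 : (∑ j, if X.y j ≠ 0 ∧ X.t j ≠ 1 then X.t j else 0) = 0 := by
    have h := sumE0 X F.t1 (fun _ => (1 : ℂ)) (fun _ _ => rfl) 1 hv1
    refine Eq.trans (Finset.sum_congr rfl fun j _ => ?_) h
    rw [E_one hp, one_mul]
  have s2 : (∑ j, if X.y j ≠ 0 ∧ X.t j ≠ 1 then Rw X j * E (X.t j) (-2 : ZMod (p ^ 2)) else 0) = 0 :=
    sumE0 X F.t1 (Rw X) (fun r j => Rw_inv X r j) (-2) hv2
  have s4 : (∑ j, if X.y j ≠ 0 ∧ X.t j ≠ 1 then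
      (1 : ℂ) * E (X.t j) (-2 + -2 : ZMod (p ^ 2)) else 0) = 0 :=
    sumE0 X F.t1 (fun _ => (1 : ℂ)) (fun _ _ => rfl) (-2 + -2) hv4
  have hsjj : ∀ j, X.y j ≠ 0 ∧ X.t j ≠ 1 →
      X.s j j = 1 / (p : ℂ) * Rw X j + ((X.t j ^ 2)⁻¹ + X.t j ^ 2) := by
    intro j hj
    have hjt : X.t j ^ p ≠ 1 := fun h => hj.2 (F.t1 j hj.1 h)
    have h3 := main_b X hB M hj.1 hjt hFo
    rw [Cw_eq X M hj.1 hjt, Nw_eq hp, X.t_o, inv_one, mul_one, mul_one] at h3
    have h4 : (p : ℂ) ^ 2 * X.s j j =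
        (p : ℂ) ^ 2 * (1 / (p : ℂ) * Rw X j + ((X.t j ^ 2)⁻¹ + X.t j ^ 2)) := by
      have e : (p : ℂ) ^ 2 * (1 / (p : ℂ) * Rw X j) = (p : ℂ) * Rw X j := by
        field_simp
      rw [mul_add, e]
      linear_combination h3
    exact mul_left_cancel₀ (pow_ne_zero 2 hp0) h4
  -- the number of elements
  have hys : ∑ k, X.y k ^ 2 = (p : ℤ) ^ 2 := by
    have h3 := X.s_uni X.o X.o
    rw [if_pos rfl] at h3
    have h4 : ∑ k, ((X.y k : ℂ)) ^ 2 = (p : ℂ) ^ 2 := by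
      rw [← h3]
      refine Finset.sum_congr rfl fun k _ => ?_
      rw [X.s_symm X.o k, X.s_o k, sq]
      congr 1
      simp
    exact_mod_cast h4
  have hcard : (∑ j, if X.y j ≠ 0 ∧ X.t j ≠ 1 then (1 : ℤ) else 0) = (p : ℤ) * gp X := by
    have h3 : ∀ j, (if X.y j ≠ 0 ∧ X.t j ≠ 1 then (1 : ℤ) else 0) =
        X.y j ^ 2 - (if j ∈ Kp X then X.y j ^ 2 else 0) - (if j = X.o then X.y j ^ 2 else 0) := by
      intro j
      by_cases hy : X.y j = 0
      · rw [if_neg (fun h => h.1 hy), hy]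
        simp
      by_cases ht : X.t j = 1
      · rw [if_neg (fun h => h.2 ht)]
        by_cases hjo : j = X.o
        · have h5 : j ∉ Kp X := by
            unfold Pool.Agent.Helper4.PQ0.Kp
            rw [Finset.mem_filter]
            exact fun h => h.2.2.2 hjo
          rw [if_pos hjo, if_neg h5]
          ring
        · have h5 : j ∈ Kp X := by
            unfold Pool.Agent.Helper4.PQ0.Kp
            rw [Finset.mem_filter]
            exact ⟨Finset.mem_univ _, hy, ht, hjo⟩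
          rw [if_neg hjo, if_pos h5]
          ring
      · have h5 : j ∉ Kp X := by
          unfold Pool.Agent.Helper4.PQ0.Kp
          rw [Finset.mem_filter]
          exact fun h => ht h.2.2.1
        have hjo : j ≠ X.o := by
          rintro rfl
          exact ht X.t_o
        rw [if_pos ⟨hy, ht⟩, if_neg h5, if_neg hjo, M.sq j hy (fun h => ht (F.t1 j hy h))]
        ring
    rw [Finset.sum_congr rfl fun j _ => h3 j, Finset.sum_sub_distrib, Finset.sum_sub_distrib, hys,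
      Finset.sum_ite_eq' Finset.univ X.o, if_pos (Finset.mem_univ _)]
    have h4 : (∑ j, if j ∈ Kp X then X.y j ^ 2 else 0) = gp X * (gp X + 1) := by
      rw [← F.sq, ← Finset.sum_filter]
      congr 1
      ext j
      simp
    rw [h4]
    have hx := F.x
    have hg : gp X = (p : ℤ) - X.y X.o := rfl
    have e1 : X.y X.o = gp X + 1 := by linarith
    have e2 : (p : ℤ) = 2 * gp X + 1 := by linarith
    rw [e1]
    rw [e2]
    ring
  refine ⟨?_, s1⟩
  have h5 : ∀ j, (if X.y j ≠ 0 ∧ X.t j ≠ 1 then (X.t j ^ 2)⁻¹ * X.s j j else 0) =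
      1 / (p : ℂ) * (if X.y j ≠ 0 ∧ X.t j ≠ 1 then Rw X j * E (X.t j) (-2 : ZMod (p ^ 2)) else 0) +
      (if X.y j ≠ 0 ∧ X.t j ≠ 1 then (1 : ℂ) * E (X.t j) (-2 + -2 : ZMod (p ^ 2)) else 0) +
      (if X.y j ≠ 0 ∧ X.t j ≠ 1 then (1 : ℂ) else 0) := by
    intro j
    by_cases h : X.y j ≠ 0 ∧ X.t j ≠ 1
    · rw [if_pos h, if_pos h, if_pos h, if_pos h, hsjj j h, E_add (X.t_pow j), hEneg]
      have hj0 : X.t j ^ 2 ≠ 0 := pow_ne_zero _ (t_ne X j)
      have e : (X.t j ^ 2)⁻¹ * X.t j ^ 2 = 1 := inv_mul_cancel₀ hj0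
      linear_combination e
    · rw [if_neg h, if_neg h, if_neg h, if_neg h]
      ring
  rw [Finset.sum_congr rfl fun j _ => h5 j, Finset.sum_add_distrib, Finset.sum_add_distrib,
    ← Finset.mul_sum, s2, s4]
  have h6 : (∑ j, if X.y j ≠ 0 ∧ X.t j ≠ 1 then (1 : ℂ) else 0) = (p : ℂ) * gp X := by
    have h7 := congrArg (fun n : ℤ => (n : ℂ)) hcard
    simp only [Int.cast_sum, Int.cast_mul, Int.cast_natCast] at h7
    rw [← h7]
    refine Finset.sum_congr rfl fun j _ => ?_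
    split_ifs <;> simp
  rw [h6]
  ring

end Pool.Agent.Helper16.PQ0
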